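import Pool.Agent.Helper32.FJL.Final

set_option autoImplicit false

namespace Pool.Agent.Results.MP_fe497f_lc.DenseFastJL

open Finset

/-- Euclidean norm of a real vector. -/
noncomputable def euclid {n : ℕ} (x : Fin n → ℝ) : ℝ := Real.sqrt (∑ i, x i ^ 2)

/-- One instruction of a linear straight-line program: read the memory cells with the fixed
addresses `a₁`, `a₂`, form `c₁ * (cell a₁) + c₂ * (cell a₂)` with the fixed real constants
`c₁`, `c₂`, and write the result into the next free memory cell. -/
structure Instr where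
  /-- first constant -/
  c₁ : ℝ
  /-- second constant -/
  c₂ : ℝ
  /-- first address -/
  a₁ : ℕ
  /-- second address -/
  a₂ : ℕ

/-- Execute one instruction (a cell that has not been written yet reads as `0`). -/
noncomputable def exec (mem : List ℝ) (I : Instr) : List ℝ :=
  mem ++ [I.c₁ * mem.getD I.a₁ 0 + I.c₂ * mem.getD I.a₂ 0]

/-- Run a program on an initial memory. -/
noncomputable def run (prog : List Instr) (mem : List ℝ) : List ℝ := prog.foldl exec mem

/-- The product `A x` is computed, for every input `x`, by one fixed linear straight-line program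
with at most `t` instructions: the memory initially holds `x 0, …, x (d-1)`, and at the end the
`i`-th coordinate of `A x` stands in the memory cell `out i`. -/
def EvaluatedIn (t : ℝ) {k d : ℕ} (A : Matrix (Fin k) (Fin d) ℝ) : Prop :=
  ∃ (prog : List Instr) (out : Fin k → ℕ), (prog.length : ℝ) ≤ t ∧
    ∀ (x : Fin d → ℝ) (i : Fin k), (run prog (List.ofFn x)).getD (out i) 0 = A.mulVec x i

/-- The `(ε, P)`-JL property of a distribution `𝒟` on real `k × d` matrices. -/
def IsJL (ε P : ℝ) {k d : ℕ} (𝒟 : PMF (Matrix (Fin k) (Fin d) ℝ)) : Prop :=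
  ∀ x : Fin d → ℝ, ENNReal.ofReal (1 - P) ≤
    𝒟.toOuterMeasure {A | (1 - ε) * euclid x ≤ euclid (A.mulVec x) ∧
      euclid (A.mulVec x) ≤ (1 + ε) * euclid x}

/-! ### From the internal cost model to list programs -/

section bridge

open Pool.Agent.FJL

/-- memory address of an input or of a result -/
def addr {d : ℕ} : Fin d ⊕ ℕ → ℕ
  | Sum.inl j => j
  | Sum.inr n => d + n

theorem run_prefix {d : ℕ} (a b : ℕ → ℝ) (f g : ℕ → Fin d ⊕ ℕ) (x : Fin d → ℝ) (v : ℕ → ℝ)
    (t : ℕ)
    (hfg : ∀ s < t, (∀ n, f s = Sum.inr n → n < s) ∧ (∀ n, g s = Sum.inr n → n < s))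
    (hv : ∀ s < t, v s = a s * Sum.elim x v (f s) + b s * Sum.elim x v (g s)) (s : ℕ)
    (hs : s ≤ t) :
    run ((List.range s).map fun s => ⟨a s, b s, addr (f s), addr (g s)⟩) (List.ofFn x) =
      List.ofFn x ++ (List.range s).map v := by
  induction s with
  | zero => simp [run]
  | succ s ih =>
    have hs' : s < t := hs
    have ih' := ih hs'.le
    unfold run at ih' ⊢
    rw [List.range_succ, List.map_append, List.foldl_append, ih']
    have key : ∀ z : Fin d ⊕ ℕ, (∀ n, z = Sum.inr n → n < s) →
        (List.ofFn x ++ (List.range s).map v).getD (addr z) 0 = Sum.elim x v z := by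
      intro z hz
      rcases z with j | n
      · simp only [addr, Sum.elim_inl]
        rw [List.getD_append _ _ _ _ (by simp)]
        simp
      · have hn := hz n rfl
        simp only [addr, Sum.elim_inr]
        rw [List.getD_append_right _ _ _ _ (by simp)]
        simp [hn]
    simp only [List.map_cons, List.map_nil, List.foldl_cons, List.foldl_nil, exec]
    rw [key (f s) (hfg s hs').1, key (g s) (hfg s hs').2, ← hv s hs']
    simp [List.map_append]

theorem evaluatedIn_of_SLP {k d t : ℕ} (A : Matrix (Fin k) (Fin d) ℝ) (T : ℝ) (hT : (t : ℝ) ≤ T)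
    (h : SLP t (fun i j => A i j)) : EvaluatedIn T A := by
  obtain ⟨a, b, f, g, out, h1, h2, h3⟩ := h
  refine ⟨(List.range t).map fun s => ⟨a s, b s, addr (f s), addr (g s)⟩, fun i => addr (out i),
    by simpa using hT, ?_⟩
  intro x i
  obtain ⟨v, hv, hout⟩ := h3 x
  rw [run_prefix a b f g x v t h1 hv t le_rfl]
  have : (List.ofFn x ++ (List.range t).map v).getD (addr (out i)) 0 =
      Sum.elim x v (out i) := by
    have hz := h2 i
    rcases hz' : out i with j | n
    · simp only [addr, Sum.elim_inl]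
      rw [List.getD_append _ _ _ _ (by simp)]
      simp
    · have hn := hz n hz'
      simp only [addr, Sum.elim_inr]
      rw [List.getD_append_right _ _ _ _ (by simp)]
      simp [hn]
  rw [this, hout i]
  rfl

end bridge

/-- **Theorem (fast Johnson–Lindenstrauss transform of optimal dimension, dense case).**
There are absolute constants `C`, `c` such that for all `d ≥ 1`, `0 < ε < 1`, `0 < P ≤ 1/2` there
is a distribution on real `k × d` matrices with the `(ε, P)`-JL property, with
`k ≤ C log (1/P) / ε²`, such that for every matrix `A` in its support and every `x ∈ ℝᵈ` the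
product `A x` is computed by a linear straight-line program with at most
`C (d + k) (1 + log d)^c` instructions. -/
theorem result : ∃ (C : ℝ) (c : ℕ), ∀ (d : ℕ) (ε P : ℝ), 1 ≤ d → 0 < ε → ε < 1 → 0 < P →
    P ≤ 1 / 2 → ∃ (k : ℕ) (𝒟 : PMF (Matrix (Fin k) (Fin d) ℝ)),
      (k : ℝ) ≤ C * Real.log (1 / P) / ε ^ 2 ∧ IsJL ε P 𝒟 ∧
      ∀ A ∈ 𝒟.support, EvaluatedIn (C * (d + k) * (1 + Real.log d) ^ c) A := by
  classical
  obtain ⟨C, c, hC, h⟩ := Pool.Agent.FJL.main
  refine ⟨C, c, ?_⟩
  intro d ε P hd hε hε1 hP hP2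
  obtain ⟨k, Ω, _, _, A, hk, hJL, hcost⟩ := h d ε P hd hε hε1 hP hP2
  obtain ⟨A', hA'⟩ : ∃ A' : Ω → Matrix (Fin k) (Fin d) ℝ, ∀ ω i j, A' ω i j = A ω i j :=
    ⟨fun ω => Matrix.of (A ω), fun _ _ _ => rfl⟩
  have hmul : ∀ ω (x : Fin d → ℝ), (A' ω).mulVec x = Pool.Agent.FJL.app (A ω) x := by
    intro ω x
    funext i
    simp only [Matrix.mulVec, dotProduct, Pool.Agent.FJL.app, hA']
  refine ⟨k, (PMF.uniformOfFintype Ω).map A', hk, ?_, ?_⟩
  · intro x
    rw [PMF.toOuterMeasure_map_apply, PMF.toOuterMeasure_uniformOfFintype_apply]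
    have h1 := hJL x
    have h2 := Pool.Agent.Helper67.JL.pr_compl
      (fun ω => Pool.Agent.FJL.JLok ε (A ω) x)
    rw [h2, Pool.Agent.Helper67.JL.pr_eq_card] at h1
    have hcardpos : (0 : ℝ) < Fintype.card Ω := by exact_mod_cast Fintype.card_pos
    rw [ENNReal.le_div_iff_mul_le (Or.inl (by simp)) (Or.inl (by simp))]
    have h3 : 1 - P ≤ ((univ.filter fun ω => Pool.Agent.FJL.JLok ε (A ω) x).card : ℝ) /
        Fintype.card Ω := by linarith
    rw [le_div_iff₀ hcardpos] at h3
    have h4 : ENNReal.ofReal (1 - P) * (Fintype.card Ω : ENNReal) =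
        ENNReal.ofReal ((1 - P) * Fintype.card Ω) := by
      rw [ENNReal.ofReal_mul (by linarith)]
      simp
    rw [h4]
    refine (ENNReal.ofReal_le_ofReal h3).trans ?_
    rw [ENNReal.ofReal_natCast]
    apply le_of_eq
    congr 1
    rw [Fintype.card_subtype]
    congr 1
    ext ω
    simp only [mem_filter, mem_univ, true_and, Set.mem_preimage, Set.mem_ofPred_eq, hmul]
    rfl
  · intro M hM
    rw [PMF.support_map] at hM
    obtain ⟨ω, -, rfl⟩ := hM
    obtain ⟨t, ht, hS⟩ := hcost ω
    refine evaluatedIn_of_SLP _ _ ht ?_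
    have : (fun i j => A' ω i j) = A ω := by
      funext i j
      exact hA' ω i j
    rw [this]
    exact hS

end Pool.Agent.Results.MP_fe497f_lc.DenseFastJL
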