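import Pool.Agent.Helper32.FJLB.Bound

set_option autoImplicit false

namespace Pool.Agent.Results.MP_fe497f_lc.StableBarrier

open Finset Pool.Agent.FJLB

/-- Euclidean norm of a real vector. -/
noncomputable def euclid {n : ℕ} (x : Fin n → ℝ) : ℝ := Real.sqrt (∑ i, x i ^ 2)

/-- The `(ε, P)`-JL property of a distribution `𝒟` on real `k × d` matrices. -/
def IsJL (ε P : ℝ) {k d : ℕ} (𝒟 : PMF (Matrix (Fin k) (Fin d) ℝ)) : Prop :=
  ∀ x : Fin d → ℝ, ENNReal.ofReal (1 - P) ≤
    𝒟.toOuterMeasure {A | (1 - ε) * euclid x ≤ euclid (A.mulVec x) ∧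
      euclid (A.mulVec x) ≤ (1 + ε) * euclid x}

/-- The program `p` computes `A x` for every input `x`. -/
def Computes {d k N : ℕ} (p : Prog d k N) (A : Matrix (Fin k) (Fin d) ℝ) : Prop :=
  ∀ (x : Fin d → ℝ) (v : Fin N → ℝ), p.IsRun x v → ∀ i, Sum.elim x v (p.out i) = A.mulVec x i

open Classical in
/-- For every set `T` of inputs at most `(|T| + k) L` instructions depend on an input in `T`
(on an input supported on `T` all the other instructions have the value `0`). -/
def Economical {d k N : ℕ} (p : Prog d k N) (L : ℝ) : Prop :=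
  ∀ T : Finset (Fin d),
    ((univ.filter fun s : Fin N => ∃ j ∈ T, p.Reach j s).card : ℝ) ≤ (T.card + k) * L

/-- Replacing the coefficient of one product of one instruction by `0` changes the output on every
unit vector by a vector of Euclidean norm at most `Λ`. -/
def Stable {d k N : ℕ} (p : Prog d k N) (Λ : ℝ) : Prop :=
  ∀ (s : Fin N) (b : Bool) (j : Fin d) (v v' : Fin N → ℝ),
    p.IsRun (Pi.single j 1) v → (p.kill s b).IsRun (Pi.single j 1) v' →
      euclid (fun i => Sum.elim (Pi.single j 1) v (p.out i) -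
        Sum.elim (Pi.single j 1) v' (p.out i)) ≤ Λ

theorem exists_good {k d : ℕ} {ι : Type} [Fintype ι] (𝒟 : PMF (Matrix (Fin k) (Fin d) ℝ))
    (P : ℝ) (hP0 : 0 ≤ P) (hP : Fintype.card ι * P < 1) (good : ι → Set (Matrix (Fin k) (Fin d) ℝ))
    (h : ∀ i, ENNReal.ofReal (1 - P) ≤ 𝒟.toOuterMeasure (good i)) :
    ∃ A ∈ 𝒟.support, ∀ i, A ∈ good i := by
  classical
  by_contra hcon
  push Not at hcon
  have hsplit : ∀ i, 𝒟.toOuterMeasure (good i) + 𝒟.toOuterMeasure (good i)ᶜ = 1 := by
    intro i
    rw [PMF.toOuterMeasure_apply, PMF.toOuterMeasure_apply, ← ENNReal.tsum_add, ← 𝒟.tsum_coe]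
    apply tsum_congr
    intro A
    by_cases hA : A ∈ good i
    · simp [hA]
    · simp [hA]
  have hbad : ∀ i, 𝒟.toOuterMeasure (good i)ᶜ ≤ ENNReal.ofReal P := by
    intro i
    have h1 := hsplit i
    have h2 := h i
    have hne : 𝒟.toOuterMeasure (good i) ≠ ⊤ := by
      intro htop
      rw [htop] at h1
      simp at h1
    have h3 : 𝒟.toOuterMeasure (good i)ᶜ = 1 - 𝒟.toOuterMeasure (good i) := by
      rw [← h1]
      exact (ENNReal.add_sub_cancel_left hne).symm
    rw [h3]
    refine (tsub_le_tsub_left h2 1).trans ?_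
    rw [tsub_le_iff_left]
    by_cases hP1 : P ≤ 1
    · rw [← ENNReal.ofReal_add (by linarith) hP0]
      simp
    · push Not at hP1
      have : (1 : ENNReal) ≤ ENNReal.ofReal P := by
        rw [← ENNReal.ofReal_one]
        exact ENNReal.ofReal_le_ofReal hP1.le
      exact this.trans le_add_self
  have hone : (1 : ENNReal) ≤ ∑ i, 𝒟.toOuterMeasure (good i)ᶜ := by
    have h1 : ∀ A, 𝒟 A ≤ ∑ i, ((good i)ᶜ).indicator 𝒟 A := by
      intro A
      by_cases hA : A ∈ 𝒟.support
      · obtain ⟨i, hi⟩ := hcon A hA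
        refine le_trans (le_of_eq ?_) (single_le_sum (f := fun i => ((good i)ᶜ).indicator 𝒟 A)
          (fun _ _ => zero_le) (mem_univ i))
        simp [hi]
      · have : 𝒟 A = 0 := by
          rw [PMF.mem_support_iff, not_not] at hA
          exact hA
        rw [this]
        exact zero_le
    calc (1 : ENNReal) = ∑' A, 𝒟 A := 𝒟.tsum_coe.symm
      _ ≤ ∑' A, ∑ i, ((good i)ᶜ).indicator 𝒟 A := ENNReal.tsum_le_tsum h1
      _ = ∑ i, ∑' A, ((good i)ᶜ).indicator 𝒟 A := by
          rw [Summable.tsum_finsetSum]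
          intro i _
          exact ENNReal.summable
      _ = ∑ i, 𝒟.toOuterMeasure (good i)ᶜ := by
          apply sum_congr rfl
          intro i _
          rw [PMF.toOuterMeasure_apply]
  have htwo : ∑ i, 𝒟.toOuterMeasure (good i)ᶜ ≤ ENNReal.ofReal (Fintype.card ι * P) := by
    refine (sum_le_sum fun i _ => hbad i).trans ?_
    rw [sum_const, card_univ, nsmul_eq_mul, ENNReal.ofReal_mul (by positivity)]
    simp
  have h3 : (1 : ENNReal) ≤ ENNReal.ofReal (Fintype.card ι * P) := hone.trans htwo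
  rw [ENNReal.one_le_ofReal] at h3
  linarith

/-- **Theorem (barrier).** Let `𝒟` be a distribution on real `k × d` matrices with the
`(ε, P)`-JL property, `ε ≤ 1/2` and `P ((2d)^t + d) < 1`, such that every matrix in its support is
computed by a linear straight-line program that is economical (at most `(|T| + k) L` instructions
depend on any set `T` of inputs) and stable with constant `Λ`. If `d ≥ 18 k L t`, then
`L Λ ≥ √t / 384`. -/
theorem result {d k t : ℕ} {L Λ ε P : ℝ} (hk : 1 ≤ k) (hL : 1 ≤ L) (hΛ : 0 ≤ Λ) (ht : 72 ≤ t)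
    (hd : 18 * k * L * t ≤ d) (hε : ε ≤ 1 / 2) (hP0 : 0 ≤ P)
    (hP : P * ((2 * d) ^ t + d) < 1)
    (𝒟 : PMF (Matrix (Fin k) (Fin d) ℝ)) (hJL : IsJL ε P 𝒟)
    (hprog : ∀ A ∈ 𝒟.support, ∃ (N : ℕ) (p : Prog d k N),
      Computes p A ∧ Economical p L ∧ Stable p Λ) :
    Real.sqrt t ≤ 384 * (L * Λ) := by
  classical
  have ht0 : (0 : ℝ) < t := by
    have : 0 < t := by omega
    exact_mod_cast this
  -- test vectors
  let X : ((Fin t → Fin d) × (Fin t → Bool)) ⊕ Fin d → Fin d → ℝ := fun ι =>
    Sum.elim (fun fs => fun j => ∑ l, (if fs.2 l then (1 : ℝ) else -1) *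
      (if j = fs.1 l then 1 else 0)) (fun j => Pi.single j 1) ι
  obtain ⟨A, hAs, hA⟩ := exists_good 𝒟 P hP0 (by
      rw [Fintype.card_sum, Fintype.card_prod, Fintype.card_fun, Fintype.card_fun,
        Fintype.card_fin, Fintype.card_fin, Fintype.card_bool]
      push_cast
      have : (d : ℝ) ^ t * 2 ^ t = (2 * d) ^ t := by
        rw [mul_pow, mul_comm]
      rw [this, mul_comm]
      exact hP)
    (fun ι => {A | (1 - ε) * euclid (X ι) ≤ euclid (A.mulVec (X ι)) ∧
      euclid (A.mulVec (X ι)) ≤ (1 + ε) * euclid (X ι)}) (fun ι => hJL (X ι))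
  obtain ⟨N, p, hc, he, hs⟩ := hprog A hAs
  have hcomp : p.Computes (fun i j => A i j) := by
    intro x i
    rw [hc x (p.val x) (p.val_isRun x) i]
    rfl
  have hcol : ∀ j, 1 / 4 ≤ ∑ i, A i j ^ 2 := by
    intro j
    have h1 := (hA (Sum.inr j)).1
    simp only [X, Sum.elim_inr] at h1
    have h2 : euclid (Pi.single j (1 : ℝ) : Fin d → ℝ) = 1 := by
      unfold euclid
      simp [Pi.single_apply]
    have h3 : euclid (A.mulVec (Pi.single j (1 : ℝ))) = Real.sqrt (∑ i, A i j ^ 2) := by
      unfold euclid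
      congr 1
      apply sum_congr rfl
      intro i _
      rw [Matrix.mulVec_single_one]
      rfl
    rw [h2, h3, mul_one] at h1
    have h4 : (1 / 2 : ℝ) ≤ Real.sqrt (∑ i, A i j ^ 2) := by linarith
    have h5 : (1 / 2 : ℝ) ^ 2 ≤ ∑ i, A i j ^ 2 := by
      rw [← Real.sq_sqrt (show 0 ≤ ∑ i, A i j ^ 2 from sum_nonneg fun _ _ => sq_nonneg _)]
      exact pow_le_pow_left₀ (by norm_num) h4 2
    linarith
  have hstab : p.Stable |Λ| := by
    intro s b j
    have h1 := hs s b j (p.val _) ((p.kill s b).val _) (p.val_isRun _) ((p.kill s b).val_isRun _)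
    unfold euclid at h1
    have h2 := (Real.sqrt_le_iff.mp h1).2
    rw [sq_abs]
    exact h2
  rw [abs_of_nonneg hΛ] at hstab
  refine det_bound p (fun i j => A i j) hcomp L Λ hL hΛ hk t ht hd ?_ hstab ?_ hcol
  · intro T hT
    refine (he T).trans ?_
    have h1 : (T.card : ℝ) ≤ k := by exact_mod_cast hT
    nlinarith
  · intro f hf s hs1
    have h1 := (hA (Sum.inl (f, fun l => decide (s l = 1)))).2
    have hX : X (Sum.inl (f, fun l => decide (s l = 1))) =
        fun j => ∑ l, s l * (if j = f l then 1 else 0) := by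
      simp only [X, Sum.elim_inl]
      funext j
      apply sum_congr rfl
      intro l _
      congr 1
      rcases hs1 l with h | h
      · simp [h]
      · have : ¬ ((-1 : ℝ) = 1) := by norm_num
        simp [h, this]
    rw [hX] at h1
    have hXn : euclid (fun j => ∑ l, s l * (if j = f l then (1 : ℝ) else 0)) = Real.sqrt t := by
      unfold euclid
      congr 1
      have h2 : ∀ j, (∑ l, s l * (if j = f l then (1 : ℝ) else 0)) ^ 2 =
          ∑ l, if j = f l then (1 : ℝ) else 0 := by
        intro j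
        by_cases hj : ∃ l, j = f l
        · obtain ⟨l, rfl⟩ := hj
          have h3 : ∀ l', (f l = f l') = (l' = l) := fun l' =>
            propext ⟨fun h => (hf h).symm, fun h => by rw [h]⟩
          simp only [h3]
          simp only [mul_ite, mul_one, mul_zero, sum_ite_eq', mem_univ, if_true]
          rcases hs1 l with h | h <;> rw [h] <;> norm_num
        · push Not at hj
          simp [hj]
      simp_rw [h2]
      rw [sum_comm]
      simp
    have hAX : ∀ i, A.mulVec (fun j => ∑ l, s l * (if j = f l then (1 : ℝ) else 0)) i =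
        ∑ l, s l * A i (f l) := by
      intro i
      simp only [Matrix.mulVec, dotProduct, mul_sum]
      rw [sum_comm]
      apply sum_congr rfl
      intro l _
      simp only [mul_ite, mul_one, mul_zero, sum_ite_eq', mem_univ, if_true]
      ring
    rw [hXn] at h1
    unfold euclid at h1
    simp only [hAX] at h1
    have h4 : Real.sqrt (∑ i, (∑ l, s l * A i (f l)) ^ 2) ≤ (3 / 2) * Real.sqrt t := by
      refine h1.trans ?_
      apply mul_le_mul_of_nonneg_right _ (Real.sqrt_nonneg _)
      linarith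
    have h5 := (Real.sqrt_le_iff.mp h4).2
    rw [mul_pow, Real.sq_sqrt ht0.le] at h5
    exact h5

end Pool.Agent.Results.MP_fe497f_lc.StableBarrier
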